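import Pool.Agent.N659.HB.Stm8

/-!
SD/KB2 (subtask 8189 of helper659): products of resolvent elements without complex conjugation.
-/

set_option autoImplicit false

namespace Pool.Agent.N887.SD.KB2

open MeasureTheory Filter Pool.Agent.W792.LL Pool.Agent.W792.WA Pool.Agent.N659.HB
open scoped Topology ENNReal

lemma quarter {T y : ℝ} (hy : 0 < y) (hT : 0 ≤ T) (h : T ≤ 1 / y) :
    T ≤ y ^ (-(3 / 4) : ℝ) * T ^ (1 / 4 : ℝ) := by
  have h1 : T = T ^ (3 / 4 : ℝ) * T ^ (1 / 4 : ℝ) := by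
    rw [← Real.rpow_add_of_nonneg hT (by norm_num) (by norm_num)]
    norm_num
  have h2 : T ^ (3 / 4 : ℝ) ≤ y ^ (-(3 / 4) : ℝ) := by
    rw [Real.rpow_neg hy.le, ← Real.inv_rpow hy.le, ← one_div]
    exact Real.rpow_le_rpow hT h (by norm_num)
  conv_lhs => rw [h1]
  exact mul_le_mul_of_nonneg_right h2 (Real.rpow_nonneg hT _)

lemma am {P G s : ℝ} (hP : 0 ≤ P) (hG : 0 ≤ G) (hs : 0 < s) :
    (P * G) ^ (1 / 4 : ℝ) ≤ (s * P ^ (1 / 2 : ℝ) + G ^ (1 / 2 : ℝ) / s) / 2 := by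
  have h1 : ∀ P : ℝ, 0 ≤ P → P ^ (1 / 2 : ℝ) = (P ^ (1 / 4 : ℝ)) ^ 2 := by
    intro P hP
    rw [← Real.rpow_natCast, ← Real.rpow_mul hP]
    norm_num
  rw [Real.mul_rpow hP hG, h1 P hP, h1 G hG]
  generalize P ^ (1 / 4 : ℝ) = u
  generalize G ^ (1 / 4 : ℝ) = v
  rw [le_div_iff₀ two_pos]
  have h2 : s * u ^ 2 + v ^ 2 / s - u * v * 2 = (s * u - v) ^ 2 / s := by
    field_simp
    ring
  have h3 : 0 ≤ (s * u - v) ^ 2 / s := by positivity
  linarith

/-- pointwise bound -/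
lemma pw {w y P Pb A B s : ℝ} (hw : 0 < w) (hy : 0 < y) (hs : 0 < s) (hP : 0 ≤ P) (hPb : 0 ≤ Pb)
    (hA : 0 < A) (hB : 0 < B) (hAB : 2 * w ≤ A + B) (h1 : P * (Pb / A) ≤ 1 / y)
    (h2 : P * (Pb / B) ≤ 1 / y) :
    P * Pb / (A * B) ≤ y ^ (-(3 / 4) : ℝ) / (2 * w) *
      (s * P ^ (1 / 2 : ℝ) + ((Pb / A) ^ (1 / 2 : ℝ) + (Pb / B) ^ (1 / 2 : ℝ)) / (2 * s)) := by
  have e1 := (quarter hy (by positivity) h1).trans
    (mul_le_mul_of_nonneg_left (am hP (div_nonneg hPb hA.le) hs) (by positivity))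
  have e2 := (quarter hy (by positivity) h2).trans
    (mul_le_mul_of_nonneg_left (am hP (div_nonneg hPb hB.le) hs) (by positivity))
  have e3 : P * Pb / (A * B) ≤ 1 / (2 * w) * (P * (Pb / A) + P * (Pb / B)) := by
    have h3 : P * (Pb / A) + P * (Pb / B) = P * Pb / (A * B) * (A + B) := by
      field_simp
      ring
    rw [h3, one_div, ← div_eq_inv_mul, le_div_iff₀ (by positivity)]
    exact mul_le_mul_of_nonneg_left hAB (by positivity)
  refine e3.trans ?_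
  have e4 : (0 : ℝ) < 1 / (2 * w) := by positivity
  refine (mul_le_mul_of_nonneg_left (add_le_add e1 e2) e4.le).trans (le_of_eq ?_)
  field_simp
  ring

lemma nd_comm {d : ℕ} (x a : Fin d → ℤ) : nd x a = nd a x := by
  unfold nd
  refine Finset.sum_congr rfl fun i _ => ?_
  rw [← Int.natAbs_neg]
  congr 1
  ring

lemma ae_unif (w : ℝ) : ∀ᵐ t ∂(unif w), |t| ≤ w := by
  unfold unif
  refine Measure.ae_smul_measure ?_ _
  filter_upwards [ae_restrict_mem measurableSet_Icc] with t ht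
  exact abs_le.2 ⟨ht.1, ht.2⟩

section

variable {d : ℕ} {w γ : ℝ} {ζ : ℂ} [IsProbabilityMeasure (unif w)]

lemma ae_site (hRS : S_RS) (x : Fin d → ℤ) :
    ∀ᵐ v ∂(Pn (unif w) (Fin d → ℤ)), |v x| ≤ w := by
  have h1 := hRS (unif w) d x
  rw [← h1.map_eq]
  rw [ae_map_iff h1.measurable.aemeasurable
    (measurableSet_le (measurable_pi_apply x).abs measurable_const)]
  have h2 := (Measure.quasiMeasurePreserving_snd (μ := Pn (unif w) (Fin d → ℤ))
    (ν := unif w)).ae (ae_unif w)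
  filter_upwards [h2] with p hp
  rwa [Function.update_self]

/-- the integral over one site -/
lemma resample (hRK : S_RK) (hRS : S_RS) (hU1 : S_U1) (hw : 0 < w) (hγ : 0 ≤ γ) (hζ : 0 < ζ.im)
    (x a b : Fin d → ℤ) :
    ∫ v, ge w γ ζ v a x * ge w γ ζ v x b ∂(Pn (unif w) (Fin d → ℤ)) =
      ∫ v, Qx w γ ζ x a v * Qx w γ ζ x b v *
        (-1 / (((w : ℂ) - Zx w γ ζ x v) * ((w : ℂ) + Zx w γ ζ x v)))
          ∂(Pn (unif w) (Fin d → ℤ)) := by
  obtain ⟨hZm, hQm, ⟨CQ, hCQ⟩, hsym, hK⟩ := hRK d w γ ζ hw hγ hζ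
  obtain ⟨-, CU, -, -, -, hU, -⟩ := hU1 w hw
  have hZim : ∀ v, ζ.im ≤ (Zx w γ ζ x v).im := by
    intro v
    obtain ⟨k1, k2, k3, -⟩ := hK x v
    rw [k3]
    have h1 := k2.le_tsum x (fun _ _ => by positivity)
    rw [k1] at h1
    simp only [norm_one, one_pow] at h1
    nlinarith
  have hb : ∀ (v : (Fin d → ℤ) → ℝ) (t : ℝ), ζ.im ≤ ‖(t : ℂ) - Zx w γ ζ x v‖ := by
    intro v t
    have h1 := Complex.abs_im_le_norm ((t : ℂ) - Zx w γ ζ x v)
    rw [Complex.sub_im, Complex.ofReal_im, zero_sub, abs_neg] at h1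
    have h2 := hZim v
    have h3 := le_abs_self (Zx w γ ζ x v).im
    linarith
  obtain ⟨F', hF'⟩ : ∃ F' : ((Fin d → ℤ) → ℝ) → ℂ, F' = fun v =>
      Qx w γ ζ x a v * Qx w γ ζ x b v / ((v x : ℂ) - Zx w γ ζ x v) ^ 2 := ⟨_, rfl⟩
  have hF'm : Measurable F' := by
    rw [hF']
    have h1 : Measurable fun v : (Fin d → ℤ) → ℝ => ((v x : ℝ) : ℂ) :=
      Complex.measurable_ofReal.comp (measurable_pi_apply x)
    exact ((hQm x a).mul (hQm x b)).div ((h1.sub (hZm x)).pow_const 2)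
  have hφ := hRS (unif w) d x
  have e1 : ∫ v, ge w γ ζ v a x * ge w γ ζ v x b ∂(Pn (unif w) (Fin d → ℤ)) =
      ∫ v, F' v ∂(Pn (unif w) (Fin d → ℤ)) := by
    refine integral_congr_ae ?_
    filter_upwards [ae_site (d := d) (w := w) hRS x] with v hv
    have h1 := (hK x v).2.2.2.2.1 (v x)
    have h2 := h1 a hv
    have h3 := h1 b hv
    rw [Function.update_eq_self] at h2 h3
    rw [(hsym v a x).1, h2, h3, hF']
    simp only
    rw [div_mul_div_comm, sq]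
  rw [e1]
  conv_lhs => rw [← hφ.map_eq]
  rw [integral_map hφ.measurable.aemeasurable hF'm.aestronglyMeasurable]
  have e2 : ∀ p : ((Fin d → ℤ) → ℝ) × ℝ, F' (Function.update p.1 x p.2) =
      Qx w γ ζ x a p.1 * Qx w γ ζ x b p.1 * (1 / ((p.2 : ℂ) - Zx w γ ζ x p.1) ^ 2) := by
    intro p
    obtain ⟨h1, h2⟩ := (hK x p.1).2.2.2.1 p.2
    rw [hF']
    simp only
    rw [h1, h2, h2, Function.update_self, mul_one_div]
  have e3 : (fun p : ((Fin d → ℤ) → ℝ) × ℝ => F' (Function.update p.1 x p.2)) = fun p =>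
      Qx w γ ζ x a p.1 * Qx w γ ζ x b p.1 * (1 / ((p.2 : ℂ) - Zx w γ ζ x p.1) ^ 2) :=
    funext e2
  have hint : Integrable (fun p : ((Fin d → ℤ) → ℝ) × ℝ => F' (Function.update p.1 x p.2))
      ((Pn (unif w) (Fin d → ℤ)).prod (unif w)) := by
    refine Integrable.of_bound (hF'm.comp hφ.measurable).aestronglyMeasurable
      (CQ * CQ * (1 / ζ.im ^ 2)) (Eventually.of_forall fun p => ?_)
    rw [e2, norm_mul, norm_mul, norm_div, norm_one, norm_pow]
    have h1 := hCQ x a p.1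
    have h2 := hCQ x b p.1
    have h3 : 0 ≤ CQ := (norm_nonneg _).trans h1
    refine mul_le_mul (mul_le_mul h1 h2 (norm_nonneg _) h3) ?_ (by positivity) (by positivity)
    refine one_div_le_one_div_of_le (by positivity) ?_
    exact pow_le_pow_left₀ hζ.le (hb p.1 p.2) 2
  rw [integral_prod _ hint]
  refine integral_congr_ae (Eventually.of_forall fun v => ?_)
  simp only
  have e4 : ∫ t, F' (Function.update v x t) ∂(unif w) = ∫ t : ℝ,
      Qx w γ ζ x a v * Qx w γ ζ x b v * (1 / ((t : ℂ) - Zx w γ ζ x v) ^ 2) ∂(unif w) :=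
    integral_congr_ae (Eventually.of_forall fun t => e2 (v, t))
  rw [e4, integral_const_mul, hU _ (lt_of_lt_of_le hζ (hZim v))]

/-- the estimate for one term -/
lemma term (hRK : S_RK) (hRS : S_RS) (hU1 : S_U1) (hw : 0 < w) (hγ : 0 ≤ γ) (hζ : 0 < ζ.im)
    (x a b : Fin d → ℤ) {α β s : ℝ} (hs : 0 < s)
    (h1 : ∫ v, ‖Qx w γ ζ x a (Function.update v x w)‖ ^ (1 / 2 : ℝ)
      ∂(Pn (unif w) (Fin d → ℤ)) ≤ α)
    (h2 : ∫ v, ‖ge w γ ζ (Function.update v x w) x b‖ ^ (1 / 2 : ℝ)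
      ∂(Pn (unif w) (Fin d → ℤ)) ≤ β)
    (h3 : ∫ v, ‖ge w γ ζ (Function.update v x (-w)) x b‖ ^ (1 / 2 : ℝ)
      ∂(Pn (unif w) (Fin d → ℤ)) ≤ β) :
    ‖∫ v, ge w γ ζ v a x * ge w γ ζ v x b ∂(Pn (unif w) (Fin d → ℤ))‖ ≤
      ζ.im ^ (-(3 / 4) : ℝ) / (2 * w) * (s * α + β / s) := by
  rw [resample hRK hRS hU1 hw hγ hζ]
  obtain ⟨hZm, hQm, ⟨CQ, hCQ⟩, hsym, hK⟩ := hRK d w γ ζ hw hγ hζ
  refine (norm_integral_le_integral_norm _).trans ?_
  have hQe : ∀ v : (Fin d → ℤ) → ℝ, Qx w γ ζ x a (Function.update v x w) = Qx w γ ζ x a v :=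
    fun v => ((hK x v).2.2.2.1 w).2 a
  simp only [hQe] at h1
  have hGp : ∀ v : (Fin d → ℤ) → ℝ, ge w γ ζ (Function.update v x w) x b =
      Qx w γ ζ x b v / ((w : ℂ) - Zx w γ ζ x v) :=
    fun v => (hK x v).2.2.2.2.1 w b (abs_of_pos hw).le
  have hGm : ∀ v : (Fin d → ℤ) → ℝ, ge w γ ζ (Function.update v x (-w)) x b =
      Qx w γ ζ x b v / (((-w : ℝ) : ℂ) - Zx w γ ζ x v) :=
    fun v => (hK x v).2.2.2.2.1 (-w) b (by rw [abs_neg, abs_of_pos hw])
  -- integrability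
  have i1 : Integrable (fun v => ‖Qx w γ ζ x a v‖ ^ (1 / 2 : ℝ)) (Pn (unif w) (Fin d → ℤ)) := by
    refine Integrable.of_bound ((hQm x a).norm.pow_const _).aestronglyMeasurable
      (CQ ^ (1 / 2 : ℝ)) (Eventually.of_forall fun v => ?_)
    rw [Real.norm_of_nonneg (by positivity)]
    exact Real.rpow_le_rpow (norm_nonneg _) (hCQ x a v) (by norm_num)
  have i2 : Integrable (fun v => ‖ge w γ ζ (Function.update v x w) x b‖ ^ (1 / 2 : ℝ))
      (Pn (unif w) (Fin d → ℤ)) := by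
    have hm : Measurable fun v => ‖ge w γ ζ (Function.update v x w) x b‖ ^ (1 / 2 : ℝ) := by
      simp only [hGp]
      exact (((hQm x b).div (measurable_const.sub (hZm x))).norm).pow_const _
    refine Integrable.of_bound hm.aestronglyMeasurable
      ((1 / ζ.im) ^ (1 / 2 : ℝ)) (Eventually.of_forall fun v => ?_)
    rw [Real.norm_of_nonneg (by positivity)]
    exact Real.rpow_le_rpow (norm_nonneg _) (hsym _ x b).2 (by norm_num)
  have i3 : Integrable (fun v => ‖ge w γ ζ (Function.update v x (-w)) x b‖ ^ (1 / 2 : ℝ))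
      (Pn (unif w) (Fin d → ℤ)) := by
    have hm : Measurable fun v => ‖ge w γ ζ (Function.update v x (-w)) x b‖ ^ (1 / 2 : ℝ) := by
      simp only [hGm]
      exact (((hQm x b).div (measurable_const.sub (hZm x))).norm).pow_const _
    refine Integrable.of_bound hm.aestronglyMeasurable
      ((1 / ζ.im) ^ (1 / 2 : ℝ)) (Eventually.of_forall fun v => ?_)
    rw [Real.norm_of_nonneg (by positivity)]
    exact Real.rpow_le_rpow (norm_nonneg _) (hsym _ x b).2 (by norm_num)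
  -- the pointwise bound
  have hpt : ∀ v, ‖Qx w γ ζ x a v * Qx w γ ζ x b v *
      (-1 / (((w : ℂ) - Zx w γ ζ x v) * ((w : ℂ) + Zx w γ ζ x v)))‖ ≤
      ζ.im ^ (-(3 / 4) : ℝ) / (2 * w) * (s * ‖Qx w γ ζ x a v‖ ^ (1 / 2 : ℝ) +
        (‖ge w γ ζ (Function.update v x w) x b‖ ^ (1 / 2 : ℝ) +
          ‖ge w γ ζ (Function.update v x (-w)) x b‖ ^ (1 / 2 : ℝ)) / (2 * s)) := by
    intro v
    obtain ⟨k1, k2, k3, -⟩ := hK x v
    have hS1 := k2.le_tsum x (fun _ _ => by positivity)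
    rw [k1] at hS1
    simp only [norm_one, one_pow] at hS1
    have hSa := k2.le_tsum a (fun _ _ => by positivity)
    have hSb := k2.le_tsum b (fun _ _ => by positivity)
    generalize (∑' a, ‖Qx w γ ζ x a v‖ ^ 2) = Sg at hS1 hSa hSb k3
    have hA : ζ.im * Sg ≤ ‖(w : ℂ) - Zx w γ ζ x v‖ := by
      have h1 := Complex.abs_im_le_norm ((w : ℂ) - Zx w γ ζ x v)
      rw [Complex.sub_im, Complex.ofReal_im, zero_sub, abs_neg, k3] at h1
      exact (le_abs_self _).trans h1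
    have hB : ζ.im * Sg ≤ ‖(w : ℂ) + Zx w γ ζ x v‖ := by
      have h1 := Complex.abs_im_le_norm ((w : ℂ) + Zx w γ ζ x v)
      rw [Complex.add_im, Complex.ofReal_im, zero_add, k3] at h1
      exact (le_abs_self _).trans h1
    have hAB : 2 * w ≤ ‖(w : ℂ) - Zx w γ ζ x v‖ + ‖(w : ℂ) + Zx w γ ζ x v‖ := by
      have h1 := norm_add_le ((w : ℂ) - Zx w γ ζ x v) ((w : ℂ) + Zx w γ ζ x v)
      have h2 : ((w : ℂ) - Zx w γ ζ x v) + ((w : ℂ) + Zx w γ ζ x v) = ((2 * w : ℝ) : ℂ) := by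
        push_cast
        ring
      rw [h2, Complex.norm_real, Real.norm_of_nonneg (by positivity)] at h1
      exact h1
    have hB' : ‖((-w : ℝ) : ℂ) - Zx w γ ζ x v‖ = ‖(w : ℂ) + Zx w γ ζ x v‖ := by
      rw [← norm_neg]
      congr 1
      push_cast
      ring
    rw [hGp, hGm, norm_div, norm_div, hB', norm_mul, norm_mul, norm_div, norm_neg, norm_one,
      norm_mul, mul_one_div]
    generalize ‖(w : ℂ) - Zx w γ ζ x v‖ = A at *
    generalize ‖(w : ℂ) + Zx w γ ζ x v‖ = B at *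
    have hPn := norm_nonneg (Qx w γ ζ x a v)
    have hQn := norm_nonneg (Qx w γ ζ x b v)
    generalize ‖Qx w γ ζ x a v‖ = P at *
    generalize ‖Qx w γ ζ x b v‖ = Pb at *
    have hPP : P * Pb ≤ Sg := by nlinarith [sq_nonneg (P - Pb)]
    have hS0 : 0 < ζ.im * Sg := by positivity
    have hA0 : 0 < A := lt_of_lt_of_le hS0 hA
    have hB0 : 0 < B := lt_of_lt_of_le hS0 hB
    have hdiv : ∀ A : ℝ, 0 < A → ζ.im * Sg ≤ A → P * (Pb / A) ≤ 1 / ζ.im := by
      intro A hA0 hA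
      rw [← mul_div_assoc, div_le_div_iff₀ hA0 hζ]
      nlinarith
    exact pw hw hζ hs hPn hQn hA0 hB0 hAB (hdiv A hA0 hA) (hdiv B hB0 hB)
  have i4 : Integrable (fun v => (‖ge w γ ζ (Function.update v x w) x b‖ ^ (1 / 2 : ℝ) +
      ‖ge w γ ζ (Function.update v x (-w)) x b‖ ^ (1 / 2 : ℝ)) / (2 * s))
      (Pn (unif w) (Fin d → ℤ)) := (i2.add i3).div_const (2 * s)
  have hbi : Integrable (fun v => ζ.im ^ (-(3 / 4) : ℝ) / (2 * w) *
      (s * ‖Qx w γ ζ x a v‖ ^ (1 / 2 : ℝ) +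
        (‖ge w γ ζ (Function.update v x w) x b‖ ^ (1 / 2 : ℝ) +
          ‖ge w γ ζ (Function.update v x (-w)) x b‖ ^ (1 / 2 : ℝ)) / (2 * s)))
      (Pn (unif w) (Fin d → ℤ)) :=
    ((i1.const_mul s).add i4).const_mul _
  refine (integral_mono_of_nonneg (Eventually.of_forall fun v => norm_nonneg _) hbi
    (Eventually.of_forall hpt)).trans ?_
  rw [integral_const_mul, integral_add (i1.const_mul s) i4,
    integral_const_mul, integral_div, integral_add i2 i3]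
  refine mul_le_mul_of_nonneg_left ?_ (by positivity)
  refine add_le_add (mul_le_mul_of_nonneg_left h1 hs.le) ?_
  rw [div_le_div_iff₀ (by positivity) hs]
  nlinarith [add_le_add h2 h3]

end

theorem main : S_RK → S_RS → S_U1 → S_FM → S_GS → S_KB2 := by
  intro hRK hRS hU1 hFM hGS d w θ _ hw hθ0 hθ1
  obtain ⟨C, γ₀, hC, hγ₀, hF⟩ := hFM d w θ hw hθ0 hθ1
  obtain ⟨D, hD, hG⟩ := hGS d
  refine ⟨max 1 (Real.sqrt C / w * (D * D)), min γ₀ ((1 / (4 * C)) ^ 2), le_max_left _ _,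
    lt_min hγ₀ (by positivity), ?_⟩
  intro γ hγ hγle ζ hζre hζ hζ2 a
  have hγ1 := hγle.trans (min_le_left _ _)
  have hγ2 := hγle.trans (min_le_right _ _)
  obtain ⟨r, hr⟩ : ∃ r : ℝ, r = Real.sqrt (C * γ ^ (1 / 2 : ℝ)) := ⟨_, rfl⟩
  have hr0 : 0 < r := by
    rw [hr]
    exact Real.sqrt_pos.2 (by positivity)
  have hrr : C * γ ^ (1 / 2 : ℝ) = r ^ 2 := by
    rw [hr, Real.sq_sqrt (by positivity)]
  have hr2 : r ≤ 1 / 2 := by
    have h1 : γ ^ (1 / 2 : ℝ) ≤ 1 / (4 * C) := by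
      rw [← Real.sqrt_eq_rpow]
      rw [← Real.sqrt_sq (show (0 : ℝ) ≤ 1 / (4 * C) by positivity)]
      exact Real.sqrt_le_sqrt hγ2
    have h2 : r ^ 2 ≤ (1 / 2) ^ 2 := by
      rw [← hrr]
      calc C * γ ^ (1 / 2 : ℝ) ≤ C * (1 / (4 * C)) := mul_le_mul_of_nonneg_left h1 (by positivity)
        _ = (1 / 2) ^ 2 := by field_simp; norm_num
    exact (pow_le_pow_iff_left₀ hr0.le (by norm_num) two_ne_zero).1 h2
  have hgs : ∀ a : Fin d → ℤ, ∑' x : Fin d → ℤ, ENNReal.ofReal (r ^ nd x a) ≤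
      ENNReal.ofReal D := by
    intro a
    obtain ⟨h1, h2, -⟩ := hG r hr0.le hr2 a
    rw [← ENNReal.ofReal_tsum_of_nonneg (fun x => by positivity) h1]
    exact ENNReal.ofReal_le_ofReal h2
  have hsC : 0 < Real.sqrt C := Real.sqrt_pos.2 (by linarith)
  have hterm : ∀ x b : Fin d → ℤ,
      ‖∫ v, ge w γ ζ v a x * ge w γ ζ v x b ∂(Pn (unif w) (Fin d → ℤ))‖ ≤
        ζ.im ^ (-(3 / 4) : ℝ) * (Real.sqrt C / w) * (r ^ nd x a * r ^ nd x b) := by
    intro x b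
    obtain ⟨f1, -, -⟩ := hF γ hγ hγ1 ζ hζre hζ hζ2 x a x
    obtain ⟨-, f2, f3⟩ := hF γ hγ hγ1 ζ hζre hζ hζ2 x b x
    rw [hrr] at f1 f2 f3
    have hs : 0 < Real.sqrt C * r ^ nd x b / r ^ nd x a := by positivity
    refine (term hRK hRS hU1 hw hγ.le hζ x a b hs f1 f2 f3).trans (le_of_eq ?_)
    have e1 : (r ^ 2) ^ nd x a = (r ^ nd x a) ^ 2 := by rw [← pow_mul, ← pow_mul, mul_comm]
    have e2 : (r ^ 2) ^ nd x b = (r ^ nd x b) ^ 2 := by rw [← pow_mul, ← pow_mul, mul_comm]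
    rw [e1, e2]
    have ha : 0 < r ^ nd x a := by positivity
    have hb : 0 < r ^ nd x b := by positivity
    generalize r ^ nd x a = ra at *
    generalize r ^ nd x b = rb at *
    have hC2 : C = Real.sqrt C * Real.sqrt C := (Real.mul_self_sqrt (by linarith)).symm
    have e3 : Real.sqrt C * rb / ra * ra ^ 2 + C * rb ^ 2 / (Real.sqrt C * rb / ra) =
        2 * (Real.sqrt C * (ra * rb)) := by
      conv_lhs => rw [show C * rb ^ 2 = Real.sqrt C * Real.sqrt C * rb ^ 2 by rw [← hC2]]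
      field_simp
      ring
    rw [e3]
    field_simp
  have hK0 : 0 ≤ ζ.im ^ (-(3 / 4) : ℝ) * (Real.sqrt C / w) := by positivity
  calc ∑' b : Fin d → ℤ, ∑' x : Fin d → ℤ, ENNReal.ofReal
        ‖∫ v, ge w γ ζ v a x * ge w γ ζ v x b ∂(Pn (unif w) (Fin d → ℤ))‖
      ≤ ∑' b : Fin d → ℤ, ∑' x : Fin d → ℤ,
        ENNReal.ofReal (ζ.im ^ (-(3 / 4) : ℝ) * (Real.sqrt C / w)) *
          (ENNReal.ofReal (r ^ nd x a) * ENNReal.ofReal (r ^ nd x b)) := by
        refine ENNReal.tsum_le_tsum fun b => ENNReal.tsum_le_tsum fun x => ?_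
        rw [← ENNReal.ofReal_mul (by positivity), ← ENNReal.ofReal_mul hK0]
        exact ENNReal.ofReal_le_ofReal (hterm x b)
    _ = ∑' x : Fin d → ℤ, ENNReal.ofReal (ζ.im ^ (-(3 / 4) : ℝ) * (Real.sqrt C / w)) *
          (ENNReal.ofReal (r ^ nd x a) * ∑' b : Fin d → ℤ, ENNReal.ofReal (r ^ nd x b)) := by
        rw [ENNReal.tsum_comm]
        refine tsum_congr fun x => ?_
        rw [ENNReal.tsum_mul_left, ENNReal.tsum_mul_left]
    _ ≤ ∑' x : Fin d → ℤ, ENNReal.ofReal (ζ.im ^ (-(3 / 4) : ℝ) * (Real.sqrt C / w)) *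
          (ENNReal.ofReal (r ^ nd x a) * ENNReal.ofReal D) := by
        refine ENNReal.tsum_le_tsum fun x => ?_
        gcongr
        simp only [nd_comm x]
        exact hgs x
    _ = ENNReal.ofReal (ζ.im ^ (-(3 / 4) : ℝ) * (Real.sqrt C / w)) *
          ((∑' x : Fin d → ℤ, ENNReal.ofReal (r ^ nd x a)) * ENNReal.ofReal D) := by
        rw [ENNReal.tsum_mul_left, ENNReal.tsum_mul_right]
    _ ≤ ENNReal.ofReal (ζ.im ^ (-(3 / 4) : ℝ) * (Real.sqrt C / w)) *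
          (ENNReal.ofReal D * ENNReal.ofReal D) := by
        gcongr
        exact hgs a
    _ = ENNReal.ofReal (ζ.im ^ (-(3 / 4) : ℝ) * (Real.sqrt C / w) * (D * D)) := by
        rw [← ENNReal.ofReal_mul (by positivity), ← ENNReal.ofReal_mul hK0]
    _ ≤ _ := by
        refine ENNReal.ofReal_le_ofReal ?_
        have h1 : Real.sqrt C / w * (D * D) ≤ max 1 (Real.sqrt C / w * (D * D)) :=
          le_max_right _ _
        have h2 : 0 ≤ ζ.im ^ (-(3 / 4) : ℝ) := by positivity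
        nlinarith

end Pool.Agent.N887.SD.KB2
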